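import Pool.Agent.Y535.PEG.StmA

/-!
Job PEG-E: erasing short loops of a path with finitely many coincidences.
-/

set_option autoImplicit false
set_option linter.all false

open Set

namespace Pool.Agent.Y529.PEG

open Pool.Agent.Y535.PEG

/-- the coincidences -/
def DD (f : ℝ → ℂ) (v u : ℝ) : Set (ℝ × ℝ) :=
  {p : ℝ × ℝ | u ≤ p.1 ∧ p.1 < p.2 ∧ p.2 ≤ v ∧ f p.1 = f p.2}

/-- the change of the parameter -/
noncomputable def lf (m t1 c : ℝ) (l' : ℝ → ℝ) (t : ℝ) : ℝ :=
  if t ≤ m then t else if t < t1 then m + (t - m) * c else l' t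

theorem lf1 {m t1 c : ℝ} {l' : ℝ → ℝ} {t : ℝ} (h : t ≤ m) : lf m t1 c l' t = t := by
  unfold lf; rw [if_pos h]

theorem lf2 {m t1 c : ℝ} {l' : ℝ → ℝ} {t : ℝ} (h : m ≤ t) (h' : t < t1) :
    lf m t1 c l' t = m + (t - m) * c := by
  unfold lf
  rcases eq_or_lt_of_le h with rfl | h
  · rw [if_pos le_rfl]; ring
  · rw [if_neg (not_le.2 h), if_pos h']

theorem lf3 {m t1 c : ℝ} {l' : ℝ → ℝ} {t : ℝ} (h : m < t1) (h' : t1 ≤ t) :
    lf m t1 c l' t = l' t := by
  unfold lf
  rw [if_neg (not_le.2 (lt_of_lt_of_le h h')), if_neg (not_lt.2 h')]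

theorem step (f : ℝ → ℂ) {u v η s1 t1 : ℝ} (hE : Er f u v η) (hs : (s1, t1) ∈ DD f v u)
    (hmin : ∀ q ∈ DD f v u, s1 ≤ q.1) {l' : ℝ → ℝ} (hl : Ed f t1 v η l') :
    ∃ l, Ed f u v η l := by
  obtain ⟨a1, a2, a3, a4⟩ := hs
  simp only at a1 a2 a3 a4
  have hus : u < s1 := by
    rcases eq_or_lt_of_le a1 with h | h
    · exact absurd a4 (h ▸ hE.hu t1 (h ▸ a2) a3)
    · exact h
  have htv : t1 < v := by
    rcases eq_or_lt_of_le a3 with h | h
    · exact absurd a4 (h ▸ hE.hv s1 a1 (h ▸ a2))
    · exact h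
  obtain ⟨m, hm⟩ : ∃ m, m = (u + s1) / 2 := ⟨_, rfl⟩
  have hum : u < m := by rw [hm]; linarith
  have hms : m < s1 := by rw [hm]; linarith
  have hmt : m < t1 := hms.trans a2
  obtain ⟨c, hc⟩ : ∃ c, c = (s1 - m) / (t1 - m) := ⟨_, rfl⟩
  have hc0 : 0 < c := by rw [hc]; exact div_pos (by linarith) (by linarith)
  have hcm : (t1 - m) * c = s1 - m := by
    rw [hc]
    have : t1 - m ≠ 0 := by linarith
    field_simp
  have hc1 : c < 1 := by rw [hc, div_lt_one (by linarith)]; linarith
  have hlt : ∀ t, t < t1 → lf m t1 c l' t < s1 := by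
    intro t ht
    rcases le_total t m with h | h
    · rw [lf1 h]; linarith
    · rw [lf2 h ht]
      have := mul_lt_mul_of_pos_right (show t - m < t1 - m by linarith) hc0
      linarith
  have hge : ∀ t, t1 ≤ t → t ≤ v → t1 ≤ lf m t1 c l' t := by
    intro t h1 h2
    rw [lf3 hmt h1]
    have := hl.mono.monotoneOn ⟨le_rfl, htv.le⟩ ⟨h1, h2⟩ h1
    rwa [hl.lu] at this
  have hgu : ∀ t, u ≤ t → t ≤ v → u ≤ lf m t1 c l' t := by
    intro t h1 h2
    rcases lt_or_ge t t1 with h | h
    · rcases le_total t m with h' | h'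
      · rw [lf1 h']; exact h1
      · rw [lf2 h' h]
        have := mul_nonneg (sub_nonneg.2 h') hc0.le
        linarith
    · have := hge t h h2
      linarith
  have hmono : StrictMonoOn (lf m t1 c l') (Icc u v) := by
    intro x hx y hy hxy
    rcases lt_or_ge y t1 with h | h
    · rcases le_total y m with h1 | h1
      · rw [lf1 h1, lf1 (hxy.le.trans h1)]; exact hxy
      · rcases le_total x m with h2 | h2
        · rw [lf2 h1 h, lf1 h2]
          rcases eq_or_lt_of_le h1 with h3 | h3
          · rw [← h3]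
            have : x < m := by rw [h3]; exact hxy
            linarith
          · have := mul_pos (sub_pos.2 h3) hc0
            linarith
        · rw [lf2 h1 h, lf2 h2 (hxy.trans h)]
          have := mul_lt_mul_of_pos_right (show x - m < y - m by linarith) hc0
          linarith
    · rcases lt_or_ge x t1 with h1 | h1
      · have h2 := hlt x h1
        have h3 := hge y h hy.2
        linarith
      · rw [lf3 hmt h, lf3 hmt h1]
        exact hl.mono ⟨h1, hx.2⟩ ⟨h, hy.2⟩ hxy
  have hlv : lf m t1 c l' v = v := by rw [lf3 hmt htv.le]; exact hl.lv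
  have hinj : ∀ x ∈ Icc u v, ∀ y ∈ Icc u v, x < y →
      f (lf m t1 c l' x) = f (lf m t1 c l' y) → False := by
    intro x hx y hy hxy hf
    have h1 := hmono hx hy hxy
    have h2 : lf m t1 c l' y ≤ v := by
      have := hmono.monotoneOn hy ⟨hE.uv.le, le_rfl⟩ hy.2
      rwa [hlv] at this
    rcases lt_or_ge x t1 with h | h
    · have h3 := hmin (lf m t1 c l' x, lf m t1 c l' y) ⟨hgu x hx.1 hx.2, h1, h2, hf⟩
      exact absurd (hlt x h) (not_lt.2 h3)
    · rw [lf3 hmt h, lf3 hmt (h.trans hxy.le)] at hf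
      exact hxy.ne (hl.inj x ⟨h, hx.2⟩ y ⟨h.trans hxy.le, hy.2⟩ hf)
  refine ⟨lf m t1 c l', hmono, lf1 hum.le, hlv, ?_, ?_, ?_, ?_⟩
  · intro t ht
    rcases lt_or_ge t t1 with h | h
    · rcases le_total t m with h' | h'
      · rw [lf1 h', sub_self, abs_zero]; exact hE.η0
      · rw [lf2 h' h]
        have h1 : 0 ≤ (t - m) * (1 - c) := mul_nonneg (sub_nonneg.2 h') (by linarith)
        have h2 : (t - m) * (1 - c) ≤ (t1 - m) * (1 - c) :=
          mul_le_mul_of_nonneg_right (by linarith) (by linarith)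
        have h3 := hE.short s1 t1 a1 a2 a3 a4
        have e : m + (t - m) * c - t = -((t - m) * (1 - c)) := by ring
        rw [e, abs_neg, abs_of_nonneg h1]
        nlinarith
    · rw [lf3 hmt h]
      exact hl.near t ⟨h, ht.2⟩
  · intro x hx y hy hf
    rcases lt_trichotomy x y with h | h | h
    · exact absurd hf fun hf => hinj x hx y hy h hf
    · exact h
    · exact absurd hf.symm fun hf => hinj y hy x hx h hf
  · intro t h1 h2
    rcases lt_or_ge t m with h | h
    · refine ⟨1, one_pos, m - t, by linarith, fun h' h3 h4 => ?_⟩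
      rw [lf1 (by linarith), lf1 (by linarith)]
      ring
    · rcases lt_or_ge t t1 with h' | h'
      · refine ⟨c, hc0, t1 - t, by linarith, fun h'' h3 h4 => ?_⟩
        rw [lf2 (by linarith) (by linarith), lf2 h h']
        ring
      · obtain ⟨κ, hκ, δ, hδ, hh⟩ := hl.right t h' h2
        refine ⟨κ, hκ, δ, hδ, fun h'' h3 h4 => ?_⟩
        rw [lf3 hmt (by linarith), lf3 hmt h']
        exact hh h'' h3 h4
  · intro t h1 h2
    rcases le_or_gt t m with h | h
    · refine ⟨t, 1, 1, h1, one_pos, one_pos, fun h' h3 h4 => ?_, Or.inl (lf1 h).symm⟩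
      rw [lf1 (by linarith)]
      ring
    · rcases lt_trichotomy t t1 with h' | h' | h'
      · refine ⟨lf m t1 c l' t, c, t - m, ?_, hc0, by linarith, fun h'' h3 h4 => ?_,
          Or.inl rfl⟩
        · rw [lf2 h.le h']
          have := mul_pos (sub_pos.2 h) hc0
          linarith
        · rw [lf2 (by linarith) (by linarith), lf2 h.le h']
          ring
      · refine ⟨s1, c, t1 - m, hus, hc0, by linarith, fun h'' h3 h4 => ?_, Or.inr ?_⟩
        · rw [h', lf2 (by linarith) (by linarith)]
          linear_combination hcm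
        · rw [h', lf3 hmt le_rfl, hl.lu]
          exact ⟨a2, a4⟩
      · obtain ⟨s, κ, δ, hs, hκ, hδ, hh, hor⟩ := hl.left t h' h2
        refine ⟨s, κ, min δ (t - t1), by linarith, hκ, lt_min hδ (by linarith),
          fun h'' h3 h4 => ?_, ?_⟩
        · have h5 := h4.trans_le (min_le_right _ _)
          rw [lf3 hmt (by linarith)]
          exact hh h'' h3 (h4.trans_le (min_le_left _ _))
        · rw [lf3 hmt h'.le]
          exact hor

theorem ind (f : ℝ → ℂ) (v η : ℝ) : ∀ (n : ℕ) (u : ℝ), (DD f v u).ncard ≤ n → Er f u v η →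
    ∃ l, Ed f u v η l := by
  intro n
  induction n with
  | zero =>
    intro u hn hE
    have hfin : (DD f v u).Finite := hE.fin
    have hD : DD f v u = ∅ := (Set.ncard_eq_zero hfin).1 (Nat.le_zero.1 hn)
    refine ⟨id, strictMonoOn_id, rfl, rfl, ?_, ?_, ?_, ?_⟩
    · intro t _
      simp [hE.η0]
    · intro x hx y hy hf
      rcases lt_trichotomy x y with h | h | h
      · have : (x, y) ∈ DD f v u := ⟨hx.1, h, hy.2, hf⟩
        rw [hD] at this
        exact absurd this (Set.notMem_empty _)
      · exact h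
      · have : (y, x) ∈ DD f v u := ⟨hy.1, h, hx.2, hf.symm⟩
        rw [hD] at this
        exact absurd this (Set.notMem_empty _)
    · intro t _ _
      exact ⟨1, one_pos, 1, one_pos, fun h _ _ => by simp⟩
    · intro t ht _
      exact ⟨t, 1, 1, ht, one_pos, one_pos, fun h _ _ => by simp, Or.inl rfl⟩
  | succ n ih =>
    intro u hn hE
    by_cases hD : DD f v u = ∅
    · refine ih u ?_ hE
      rw [hD]
      simp
    · have hfin : (DD f v u).Finite := hE.fin
      obtain ⟨p, hp, hmin⟩ := Set.exists_min_image (DD f v u) Prod.fst hfin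
        (Set.nonempty_iff_ne_empty.2 hD)
      have hfin2 : {q ∈ DD f v u | q.1 = p.1}.Finite := hfin.subset fun q hq => hq.1
      obtain ⟨q, hq, hmax⟩ := Set.exists_max_image {q ∈ DD f v u | q.1 = p.1} Prod.snd hfin2
        ⟨p, hp, rfl⟩
      obtain ⟨s1, t1⟩ := q
      obtain ⟨hq1, hq2⟩ := hq
      simp only at hq2
      have hmin' : ∀ r ∈ DD f v u, s1 ≤ r.1 := by
        intro r hr
        rw [hq2]
        exact hmin r hr
      obtain ⟨a1, a2, a3, a4⟩ := id hq1
      simp only at a1 a2 a3 a4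
      have htv : t1 < v := by
        rcases eq_or_lt_of_le a3 with h | h
        · exact absurd a4 (h ▸ hE.hv s1 a1 (h ▸ a2))
        · exact h
      have hsub : DD f v t1 ⊆ DD f v u := by
        rintro r ⟨b1, b2, b3, b4⟩
        exact ⟨by linarith, b2, b3, b4⟩
      have hE' : Er f t1 v η := by
        refine ⟨htv, hE.η0, hfin.subset hsub, ?_, ?_, ?_⟩
        · intro x y hx hxy hy hf
          exact hE.short x y (by linarith) hxy hy hf
        · intro y hy hyv hf
          have h1 : (s1, y) ∈ {q ∈ DD f v u | q.1 = p.1} :=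
            ⟨⟨a1, a2.trans hy, hyv, a4.trans hf⟩, hq2⟩
          have h2 := hmax _ h1
          simp only at h2
          linarith
        · intro x hx hxv
          exact hE.hv x (by linarith) hxv
      have hlt : (DD f v t1).ncard < (DD f v u).ncard := by
        refine Set.ncard_lt_ncard ?_ hfin
        refine ⟨hsub, fun h => ?_⟩
        have := (h hq1).1
        simp only at this
        linarith
      obtain ⟨l', hl'⟩ := ih t1 (by omega) hE'
      exact step f hE hq1 hmin' hl'

theorem erase : S_E := fun f u v η hE => ind f v η _ u le_rfl hE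

end Pool.Agent.Y529.PEG
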